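import Pool.Graph.R_pool_sql_team_seeded_b0a926ef.R978.PD.C

set_option autoImplicit false

/-!
# Products of random factors: the first coefficient in a class modulo `2 ^ k`
-/

namespace Pool.Agent.H89.TH

open PowerSeries Finset Pool.Agent.R978.PD

abbrev S := PowerSeries (ZMod 2)

/-- `B = 1 + q ^ d + …` with exponents divisible by the powers of two that divide `d` -/
def IsFactor (d : ℕ) (B : S) : Prop :=
  coeff 0 B = 1 ∧ (∀ n, 0 < n → n < d → coeff n B = 0) ∧ coeff d B = 1 ∧
    ∀ k n, 2 ^ k ∣ d → coeff n B ≠ 0 → 2 ^ k ∣ n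

/-- all exponents are divisible by `2 ^ k`, and the constant term is one -/
def Cl (k : ℕ) (B : S) : Prop := coeff 0 B = 1 ∧ ∀ n, coeff n B ≠ 0 → 2 ^ k ∣ n

theorem Cl.one (k : ℕ) : Cl k (1 : S) := by
  refine ⟨by simp, fun n hn => ?_⟩
  rw [coeff_one] at hn
  by_cases h : n = 0
  · rw [h]
    exact dvd_zero _
  · rw [if_neg h] at hn
    exact absurd rfl hn

theorem Cl.mul {k : ℕ} {B B' : S} (h : Cl k B) (h' : Cl k B') : Cl k (B * B') := by
  refine ⟨?_, fun n hn => ?_⟩
  · have h1 := h.1
    have h2 := h'.1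
    rw [coeff_zero_eq_constantCoeff_apply] at h1 h2 ⊢
    rw [map_mul, h1, h2, one_mul]
  · rw [coeff_mul] at hn
    obtain ⟨p, hp, hne⟩ := exists_ne_zero_of_sum_ne_zero hn
    rw [HasAntidiagonal.mem_antidiagonal] at hp
    have h1 := h.2 p.1 (left_ne_zero_of_mul hne)
    have h2 := h'.2 p.2 (right_ne_zero_of_mul hne)
    rw [← hp]
    exact dvd_add h1 h2

theorem Cl.prod {k : ℕ} {β : ℕ → S} {D : Finset ℕ} (h : ∀ d ∈ D, Cl k (β d)) :
    Cl k (∏ d ∈ D, β d) := by
  classical
  induction D using Finset.induction_on with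
  | empty => exact Cl.one k
  | insert a D ha ih =>
    rw [prod_insert ha]
    exact (h a (mem_insert_self _ _)).mul (ih fun d hd => h d (mem_insert_of_mem hd))

theorem IsFactor.cl {d k : ℕ} {B : S} (h : IsFactor d B) (hk : 2 ^ k ∣ d) : Cl k B :=
  ⟨h.1, fun n hn => h.2.2.2 k n hk hn⟩

/-- `p - h` is the first exponent `≤ p` in the class of `p` modulo `2 ^ k` with a nonzero
coefficient -/
def St (k p h : ℕ) (Z : S) : Prop :=
  h ≤ p ∧ 2 ^ k ∣ h ∧ coeff (p - h) Z = 1 ∧ ∀ g, h < g → g ≤ p → 2 ^ k ∣ g → coeff (p - g) Z = 0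

/-- coefficients of the product with a factor -/
theorem coeff_low {k p h d g : ℕ} {Z B : S} (hZ : St k p h Z) (hB : Cl k B)
    (hd : ∀ n, 0 < n → n < d → coeff n B = 0) (hg : g ≤ p) (hkg : 2 ^ k ∣ g) (hh : h < g + d) :
    coeff (p - g) (Z * B) = coeff (p - g) Z := by
  rw [coeff_mul, sum_eq_single (p - g, 0)]
  · simp only [hB.1, mul_one]
  · intro x hx hne
    rw [HasAntidiagonal.mem_antidiagonal] at hx
    have h0 : 0 < x.2 := by
      rcases Nat.eq_zero_or_pos x.2 with h | h
      · exfalso
        apply hne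
        ext
        · simp only
          omega
        · exact h
      · exact h
    by_cases hB2 : coeff x.2 B = 0
    · rw [hB2, mul_zero]
    · have h1 := hB.2 _ hB2
      have h2 : d ≤ x.2 := by
        by_contra hcon
        exact hB2 (hd _ h0 (by omega))
      have h3 : x.1 = p - (g + x.2) := by omega
      rw [h3, hZ.2.2.2 (g + x.2) (by omega) (by omega) (dvd_add hkg h1), zero_mul]
  · intro hn
    exfalso
    apply hn
    rw [HasAntidiagonal.mem_antidiagonal]
    simp

theorem coeff_top {k p h d : ℕ} {Z B : S} (hZ : St k p h Z) (hB : IsFactor d B)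
    (hkd : 2 ^ k ∣ d) (hd0 : 0 < d) (hd : d ≤ h) :
    coeff (p - (h - d)) (Z * B) = coeff (p - (h - d)) Z + 1 := by
  have hhp := hZ.1
  have hBc := hB.cl hkd
  have hkg : 2 ^ k ∣ h - d := Nat.dvd_sub hZ.2.1 hkd
  rw [coeff_mul, ← sum_subset (s₁ := {(p - (h - d), 0), (p - h, d)})]
  · rw [sum_pair]
    · simp only [hB.1, hB.2.2.1, hZ.2.2.1, mul_one]
    · intro hcon
      rw [Prod.mk.injEq] at hcon
      omega
  · intro x hx
    rw [mem_insert, mem_singleton] at hx
    rw [HasAntidiagonal.mem_antidiagonal]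
    rcases hx with rfl | rfl
    · simp
    · simp only
      omega
  · intro x hx hne
    rw [HasAntidiagonal.mem_antidiagonal] at hx
    rw [mem_insert, mem_singleton, not_or] at hne
    by_cases hB2 : coeff x.2 B = 0
    · rw [hB2, mul_zero]
    · have h1 := hBc.2 _ hB2
      have h0 : 0 < x.2 := by
        rcases Nat.eq_zero_or_pos x.2 with h | h
        · exfalso
          apply hne.1
          ext
          · simp only
            omega
          · exact h
        · exact h
      have h2 : d ≤ x.2 := by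
        by_contra hcon
        exact hB2 (hB.2.1 _ h0 (by omega))
      have h2' : d ≠ x.2 := by
        rintro rfl
        apply hne.2
        ext
        · simp only
          omega
        · rfl
      have h3 : x.1 = p - (h - d + x.2) := by omega
      rw [h3, hZ.2.2.2 (h - d + x.2) (by omega) (by omega) (dvd_add hkg h1), zero_mul]

theorem St.mul {k p h : ℕ} {Z B : S} (hZ : St k p h Z) (hB : Cl k B) : St k p h (Z * B) := by
  refine ⟨hZ.1, hZ.2.1, ?_, fun g hg hgp hkg => ?_⟩
  · rw [coeff_low hZ hB (d := 1) (fun n h1 h2 => by omega) hZ.1 hZ.2.1 (by omega)]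
    exact hZ.2.2.1
  · rw [coeff_low hZ hB (d := 1) (fun n h1 h2 => by omega) hgp hkg (by omega)]
    exact hZ.2.2.2 g hg hgp hkg

theorem St.succ {k p h : ℕ} {Z : S} (hZ : St k p h Z) (hk : 2 ^ (k + 1) ∣ h) :
    St (k + 1) p h Z :=
  ⟨hZ.1, hk, hZ.2.2.1, fun g h1 h2 h3 => hZ.2.2.2 g h1 h2 (dvd_trans (pow_dvd_pow 2 (by omega)) h3)⟩

/-- the mean of the sign of the coefficient at `p`, over the subsets of `A` -/
noncomputable def ES (β : ℕ → S) (A : Finset ℕ) (p : ℕ) (Z : S) : ℝ :=
  |∑ D ∈ A.powerset, chi (coeff p (Z * ∏ d ∈ D, β d))| / 2 ^ #A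

theorem ES_nonneg (β : ℕ → S) (A : Finset ℕ) (p : ℕ) (Z : S) : 0 ≤ ES β A p Z := by
  unfold ES
  positivity

theorem ES_le_one (β : ℕ → S) (A : Finset ℕ) (p : ℕ) (Z : S) : ES β A p Z ≤ 1 := by
  unfold ES
  rw [div_le_one (by positivity)]
  refine (abs_sum_le_sum_abs _ _).trans ?_
  rw [sum_congr rfl fun D _ => abs_chi _, sum_const, card_powerset, nsmul_eq_mul, mul_one]
  push_cast
  rfl

/-- flipping the factor `h` changes the value -/
theorem ES_flip {β : ℕ → S} {A : Finset ℕ} {k p h : ℕ} {Z : S}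
    (hA : ∀ d ∈ A, 2 ^ k ∣ d ∧ IsFactor d (β d)) (hh : h ∈ A) (h0 : 0 < h) (hZ : St k p h Z) :
    ES β A p Z = 0 := by
  classical
  have hsum : ∑ D ∈ A.powerset, chi (coeff p (Z * ∏ d ∈ D, β d)) = 0 := by
    rw [← insert_erase hh, sum_powerset_insert (notMem_erase h A), ← sum_add_distrib]
    refine sum_eq_zero fun D hD => ?_
    rw [mem_powerset] at hD
    have hhD : h ∉ D := fun hc => notMem_erase h A (hD hc)
    have hDA : ∀ d ∈ D, Cl k (β d) := fun d hd =>
      (hA d (mem_of_mem_erase (hD hd))).2.cl (hA d (mem_of_mem_erase (hD hd))).1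
    have hZ' := hZ.mul (Cl.prod hDA)
    have h1 := coeff_top hZ' (hA h hh).2 (hA h hh).1 h0 le_rfl
    rw [Nat.sub_self, Nat.sub_zero, mul_assoc] at h1
    rw [prod_insert hhD, mul_comm (β h), h1, chi_add, chi_one]
    ring
  unfold ES
  rw [hsum, abs_zero, zero_div]

theorem sum_powerset_union {M : Type*} [AddCommMonoid M] {B A' : Finset ℕ} (h : Disjoint B A')
    (f : Finset ℕ → M) : ∑ D ∈ (B ∪ A').powerset, f D =
      ∑ D₁ ∈ B.powerset, ∑ D₂ ∈ A'.powerset, f (D₁ ∪ D₂) := by
  classical
  rw [← sum_product']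
  refine sum_nbij' (fun D => (D ∩ B, D ∩ A')) (fun x => x.1 ∪ x.2) ?_ ?_ ?_ ?_ ?_
  · intro D _
    rw [mem_product, mem_powerset, mem_powerset]
    exact ⟨inter_subset_right, inter_subset_right⟩
  · intro x hx
    rw [mem_product, mem_powerset, mem_powerset] at hx
    rw [mem_powerset]
    exact union_subset_union hx.1 hx.2
  · intro D hD
    rw [mem_powerset] at hD
    simp only
    rw [← inter_union_distrib_left, inter_eq_left.2 hD]
  · intro x hx
    rw [mem_product, mem_powerset, mem_powerset] at hx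
    rw [disjoint_left] at h
    ext a
    · simp only [mem_inter, mem_union]
      constructor
      · rintro ⟨h1 | h1, h2⟩
        · exact h1
        · exact absurd (hx.2 h1) (h h2)
      · exact fun h1 => ⟨Or.inl h1, hx.1 h1⟩
    · simp only [mem_inter, mem_union]
      constructor
      · rintro ⟨h1 | h1, h2⟩
        · exact absurd h2 (h (hx.1 h1))
        · exact h1
      · exact fun h1 => ⟨Or.inr h1, hx.2 h1⟩
  · intro D hD
    rw [mem_powerset] at hD
    simp only
    rw [← inter_union_distrib_left, inter_eq_left.2 hD]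

theorem ES_split {β : ℕ → S} {B A' : Finset ℕ} (h : Disjoint B A') (p : ℕ) (Z : S) :
    ES β (B ∪ A') p Z ≤ (∑ D ∈ B.powerset, ES β A' p (Z * ∏ d ∈ D, β d)) / 2 ^ #B := by
  classical
  unfold ES
  rw [sum_powerset_union h, card_union_of_disjoint h, pow_add, ← div_div, div_right_comm]
  apply div_le_div_of_nonneg_right _ (by positivity)
  rw [← sum_div]
  apply div_le_div_of_nonneg_right _ (by positivity)
  refine (abs_sum_le_sum_abs _ _).trans (sum_le_sum fun D₁ h1 => le_of_eq ?_)
  congr 1
  refine sum_congr rfl fun D₂ h2 => ?_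
  rw [mem_powerset] at h1 h2
  rw [prod_union (h.mono h1 h2), mul_assoc]

/-- few subsets give zeros at all the places `p - (h - d)`, `d ∈ J` -/
theorem few_zeros {β : ℕ → S} {B : Finset ℕ} {k p h : ℕ} {Z : S}
    (hB : ∀ d ∈ B, 0 < d ∧ 2 ^ k ∣ d ∧ IsFactor d (β d)) (hZ : St k p h Z) :
    ∀ (n : ℕ) (J : Finset ℕ), #J = n → J ⊆ B → (∀ d ∈ J, d ≤ h) →
      #{D ∈ B.powerset | ∀ d ∈ J, coeff (p - (h - d)) (Z * ∏ e ∈ D, β e) = 0} * 2 ^ #J ≤ 2 ^ #B := by
  classical
  intro n
  induction n with
  | zero =>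
    intro J hJ _ _
    rw [card_eq_zero] at hJ
    subst hJ
    rw [card_empty, pow_zero, mul_one]
    refine (card_filter_le _ _).trans (le_of_eq (card_powerset _))
  | succ n ih =>
    intro J hJ hJB hJh
    have hne : J.Nonempty := by
      rw [← card_pos]
      omega
    set c := J.max' hne with hc
    have hcJ : c ∈ J := J.max'_mem hne
    have hmax : ∀ d ∈ J, d ≤ c := fun d hd => J.le_max' d hd
    set F : Finset ℕ → Finset (Finset ℕ) := fun J =>
      {D ∈ B.powerset | ∀ d ∈ J, coeff (p - (h - d)) (Z * ∏ e ∈ D, β e) = 0} with hF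
    have hcB := hB c (hJB hcJ)
    -- the effect of adjoining `c`
    have key : ∀ D ⊆ B, c ∉ D → ∀ d ∈ J,
        coeff (p - (h - d)) (Z * ∏ e ∈ insert c D, β e) =
          coeff (p - (h - d)) (Z * ∏ e ∈ D, β e) + if d = c then 1 else 0 := by
      intro D hD hcD d hd
      have hZ' : St k p h (Z * ∏ e ∈ D, β e) :=
        hZ.mul (Cl.prod fun e he => (hB e (hD he)).2.2.cl (hB e (hD he)).2.1)
      rw [prod_insert hcD, mul_comm (β c), ← mul_assoc]
      have hdB := hB d (hJB hd)
      by_cases hdc : d = c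
      · rw [if_pos hdc, hdc]
        exact coeff_top hZ' hcB.2.2 hcB.2.1 hcB.1 (hJh c hcJ)
      · rw [if_neg hdc, add_zero]
        have h1 := hmax d hd
        have h2 := hJh d hd
        have h3 := hZ.1
        exact coeff_low hZ' (hcB.2.2.cl hcB.2.1) hcB.2.2.2.1 (by omega)
          (Nat.dvd_sub hZ.2.1 hdB.2.1) (by omega)
    have h2 : #(F J) + #(F J) ≤ #(F (J.erase c)) := by
      set tg : Finset ℕ → Finset ℕ := fun D => if c ∈ D then D.erase c else insert c D with htg
      have htg2 : ∀ D, tg (tg D) = D := by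
        intro D
        simp only [htg]
        by_cases hD : c ∈ D
        · rw [if_pos hD, if_neg (notMem_erase c D), insert_erase hD]
        · rw [if_neg hD, if_pos (mem_insert_self c D), erase_insert hD]
      have hval : ∀ D ⊆ B, ∀ d ∈ J, coeff (p - (h - d)) (Z * ∏ e ∈ tg D, β e) =
          coeff (p - (h - d)) (Z * ∏ e ∈ D, β e) + if d = c then 1 else 0 := by
        intro D hD d hd
        simp only [htg]
        by_cases hcD : c ∈ D
        · rw [if_pos hcD]
          have h1 := key (D.erase c) ((erase_subset _ _).trans hD) (notMem_erase c D) d hd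
          rw [insert_erase hcD] at h1
          rw [h1, add_assoc]
          have : ∀ x : ZMod 2, x + x = 0 := by decide
          rw [this, add_zero]
        · rw [if_neg hcD]
          exact key D hD hcD d hd
      have htgB : ∀ D ⊆ B, tg D ⊆ B := by
        intro D hD
        simp only [htg]
        split_ifs
        · exact (erase_subset _ _).trans hD
        · exact insert_subset (hJB hcJ) hD
      have himg : #((F J).image tg) = #(F J) := by
        apply card_image_of_injective
        intro D D' hDD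
        rw [← htg2 D, ← htg2 D', hDD]
      have hdisj : Disjoint (F J) ((F J).image tg) := by
        rw [disjoint_left]
        intro D h1 h2
        rw [mem_image] at h2
        obtain ⟨D', h3, rfl⟩ := h2
        simp only [hF, mem_filter, mem_powerset] at h1 h3
        have h4 := hval D' h3.1 c hcJ
        rw [if_pos rfl, h1.2 c hcJ, h3.2 c hcJ, zero_add] at h4
        exact zero_ne_one h4
      rw [← himg]
      conv_lhs => rw [himg]
      calc #(F J) + #(F J) = #(F J) + #((F J).image tg) := by rw [himg]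
        _ = #(F J ∪ (F J).image tg) := (card_union_of_disjoint hdisj).symm
        _ ≤ #(F (J.erase c)) := by
            refine card_le_card (union_subset ?_ ?_)
            · intro D hD
              simp only [hF, mem_filter] at hD ⊢
              exact ⟨hD.1, fun d hd => hD.2 d (mem_of_mem_erase hd)⟩
            · intro D hD
              rw [mem_image] at hD
              obtain ⟨D', h3, rfl⟩ := hD
              simp only [hF, mem_filter, mem_powerset] at h3 ⊢
              refine ⟨htgB D' h3.1, fun d hd => ?_⟩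
              rw [hval D' h3.1 d (mem_of_mem_erase hd), if_neg (ne_of_mem_erase hd), add_zero]
              exact h3.2 d (mem_of_mem_erase hd)
    have h3 := ih (J.erase c) (by rw [card_erase_of_mem hcJ]; omega) ((erase_subset _ _).trans hJB)
      (fun d hd => hJh d (mem_of_mem_erase hd))
    rw [hJ, pow_succ]
    rw [card_erase_of_mem hcJ, hJ, Nat.add_sub_cancel] at h3
    calc #(F J) * (2 ^ n * 2) = (#(F J) + #(F J)) * 2 ^ n := by ring
      _ ≤ #(F (J.erase c)) * 2 ^ n := Nat.mul_le_mul_right _ h2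
      _ ≤ 2 ^ #B := h3

end Pool.Agent.H89.TH
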