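import Pool.Agent.H89.TH.A

set_option autoImplicit false

/-!
# The descent through the levels
-/

namespace Pool.Agent.H89.TH

open PowerSeries Finset Pool.Agent.R978.PD

theorem odd_multiple {k a : ℕ} (h : 2 ^ k ∣ a) (h' : ¬ 2 ^ (k + 1) ∣ a) :
    ∃ c, Odd c ∧ a = 2 ^ k * c := by
  obtain ⟨c, hc⟩ := h
  refine ⟨c, ?_, hc⟩
  rw [← Nat.not_even_iff_odd]
  rintro ⟨e, he⟩
  apply h'
  refine ⟨e, ?_⟩
  rw [hc, he, pow_succ]
  ring

theorem dvd_sub_of_odd {k a b : ℕ} (ha : 2 ^ k ∣ a) (ha' : ¬ 2 ^ (k + 1) ∣ a) (hb : 2 ^ k ∣ b)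
    (hb' : ¬ 2 ^ (k + 1) ∣ b) : 2 ^ (k + 1) ∣ a - b := by
  obtain ⟨c, hc, rfl⟩ := odd_multiple ha ha'
  obtain ⟨e, he, rfl⟩ := odd_multiple hb hb'
  rw [← Nat.mul_sub, pow_succ]
  apply Nat.mul_dvd_mul_left
  obtain ⟨x, rfl⟩ := hc
  obtain ⟨y, rfl⟩ := he
  exact ⟨x - y, by omega⟩

/-- one level -/
theorem step {β : ℕ → S} {A : Finset ℕ} {k p h C : ℕ} {Z : S} {ε : ℝ} (hε : 0 ≤ ε)
    (hA : ∀ d ∈ A, 0 < d ∧ 2 ^ k ∣ d ∧ IsFactor d (β d)) (hZ : St k p h Z)
    (J : Finset ℕ) (hJ : ∀ d ∈ J, d ∈ A ∧ ¬ 2 ^ (k + 1) ∣ d ∧ d ≤ C) (hC : C < h)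
    (H : ∀ h', 2 ^ (k + 1) ∣ h' → h ≤ h' + C → h' ≤ h → ∀ Z', St (k + 1) p h' Z' →
      ES β {d ∈ A | 2 ^ (k + 1) ∣ d} p Z' ≤ ε) :
    ES β A p Z ≤ ε + 1 / 2 ^ #J := by
  classical
  set A' := {d ∈ A | 2 ^ (k + 1) ∣ d} with hA'
  set B := {d ∈ A | ¬ 2 ^ (k + 1) ∣ d} with hB
  have hU : B ∪ A' = A := by
    rw [hA', hB, union_comm]
    exact filter_union_filter_not_eq _ _
  have hdis : Disjoint B A' := (disjoint_filter_filter_not A A _).symm
  have h1 := ES_split (β := β) hdis p Z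
  rw [hU] at h1
  refine h1.trans ?_
  have hBA : ∀ d ∈ B, 0 < d ∧ 2 ^ k ∣ d ∧ IsFactor d (β d) := fun d hd =>
    hA d (mem_filter.1 hd).1
  have hSt : ∀ D ∈ B.powerset, St k p h (Z * ∏ d ∈ D, β d) := by
    intro D hD
    rw [mem_powerset] at hD
    exact hZ.mul (Cl.prod fun d hd => (hBA d (hD hd)).2.2.cl (hBA d (hD hd)).2.1)
  have hp2 : (0 : ℝ) < 2 ^ #B := by positivity
  by_cases hk : 2 ^ (k + 1) ∣ h
  · have h2 : ∑ D ∈ B.powerset, ES β A' p (Z * ∏ d ∈ D, β d) ≤ ∑ D ∈ B.powerset, ε := by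
      refine sum_le_sum fun D hD => ?_
      exact H h hk (by omega) le_rfl _ ((hSt D hD).succ hk)
    rw [sum_const, card_powerset, nsmul_eq_mul] at h2
    push_cast at h2
    rw [div_le_iff₀ hp2]
    have : (0 : ℝ) ≤ 1 / 2 ^ #J := by positivity
    nlinarith
  · have hJB : J ⊆ B := by
      intro d hd
      rw [hB, mem_filter]
      exact ⟨(hJ d hd).1, (hJ d hd).2.1⟩
    have hfew := few_zeros hBA hZ (#J) J rfl hJB (fun d hd => (hJ d hd).2.2.trans hC.le)
    set F := {D ∈ B.powerset | ∀ d ∈ J, coeff (p - (h - d)) (Z * ∏ e ∈ D, β e) = 0} with hF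
    have hval : ∀ D ∈ B.powerset, ES β A' p (Z * ∏ d ∈ D, β d) ≤
        ε + if D ∈ F then 1 else 0 := by
      intro D hD
      by_cases hDF : D ∈ F
      · rw [if_pos hDF]
        have := ES_le_one β A' p (Z * ∏ d ∈ D, β d)
        linarith
      · rw [if_neg hDF, add_zero]
        rw [hF, mem_filter] at hDF
        push Not at hDF
        obtain ⟨d, hdJ, hd⟩ := hDF hD
        set Z' := Z * ∏ e ∈ D, β e with hZ'
        have hS := hSt D hD
        set G := {g ∈ range h | 2 ^ (k + 1) ∣ g ∧ coeff (p - g) Z' ≠ 0} with hG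
        have hd0 := (hA d (hJ d hdJ).1).1
        have hmem : h - d ∈ G := by
          rw [hG, mem_filter, mem_range]
          refine ⟨by omega, ?_, hd⟩
          exact dvd_sub_of_odd hZ.2.1 hk (hA d (hJ d hdJ).1).2.1 (hJ d hdJ).2.1
        have hne : G.Nonempty := ⟨_, hmem⟩
        set g := G.max' hne with hg
        have hgG : g ∈ G := G.max'_mem hne
        have hgmax : ∀ x ∈ G, x ≤ g := fun x hx => G.le_max' x hx
        have hgd := hgmax _ hmem
        rw [hG, mem_filter, mem_range] at hgG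
        have hhp := hZ.1
        refine H g hgG.2.1 ?_ hgG.1.le Z' ⟨by omega, hgG.2.1, ?_, ?_⟩
        · have := (hJ d hdJ).2.2
          omega
        · rcases zmod2 (coeff (p - g) Z') with h0 | h0
          · exact absurd h0 hgG.2.2
          · exact h0
        · intro x hx hxp hkx
          rcases lt_trichotomy x h with hxh | hxh | hxh
          · by_contra hcon
            have : x ∈ G := by
              rw [hG, mem_filter, mem_range]
              exact ⟨hxh, hkx, hcon⟩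
            have := hgmax x this
            omega
          · rw [hxh] at hkx
            exact absurd hkx hk
          · exact hS.2.2.2 x hxh hxp (dvd_trans (pow_dvd_pow 2 (by omega)) hkx)
    have h2 : ∑ D ∈ B.powerset, ES β A' p (Z * ∏ d ∈ D, β d) ≤ 2 ^ #B * ε + #F := by
      refine (sum_le_sum hval).trans (le_of_eq ?_)
      rw [sum_add_distrib, sum_const, card_powerset, nsmul_eq_mul, sum_boole]
      push_cast
      congr 2
      have : {D ∈ B.powerset | D ∈ F} = F := by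
        ext D
        rw [mem_filter, hF, mem_filter]
        exact ⟨fun h => h.2, fun h => ⟨h.1, h⟩⟩
      rw [this]
    have h3 : (#F : ℝ) * 2 ^ #J ≤ 2 ^ #B := by exact_mod_cast hfew
    have h4 : (#F : ℝ) ≤ 2 ^ #B * (1 / 2 ^ #J) := by
      rw [mul_one_div, le_div_iff₀ (by positivity)]
      exact h3
    rw [div_le_iff₀ hp2]
    calc _ ≤ 2 ^ #B * ε + #F := h2
      _ ≤ 2 ^ #B * ε + 2 ^ #B * (1 / 2 ^ #J) := by linarith
      _ = _ := by ring

open scoped Classical in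
/-- the elements of `N` up to `p` that are divisible by `2 ^ k` -/
noncomputable def AA (N : Set ℕ) (p k : ℕ) : Finset ℕ :=
  {d ∈ range (p + 1) | 0 < d ∧ d ∈ N ∧ 2 ^ k ∣ d}

theorem mem_AA {N : Set ℕ} {p k d : ℕ} : d ∈ AA N p k ↔ d ≤ p ∧ 0 < d ∧ d ∈ N ∧ 2 ^ k ∣ d := by
  classical
  unfold AA
  simp only [mem_filter, mem_range, Nat.lt_succ_iff]

theorem AA_succ (N : Set ℕ) (p k : ℕ) : {d ∈ AA N p k | 2 ^ (k + 1) ∣ d} = AA N p (k + 1) := by
  ext d
  rw [mem_filter, mem_AA, mem_AA]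
  constructor
  · rintro ⟨⟨h1, h2, h3, -⟩, h4⟩
    exact ⟨h1, h2, h3, h4⟩
  · rintro ⟨h1, h2, h3, h4⟩
    exact ⟨⟨h1, h2, h3, dvd_trans (pow_dvd_pow 2 (by omega)) h4⟩, h4⟩

/-- the last levels -/
theorem phase2 {β : ℕ → S} {N : Set ℕ} (hβ : ∀ d ∈ N, 0 < d → IsFactor d (β d)) {r : ℕ → ℕ}
    (hr : Monotone r) (hr1 : ∀ k, 1 ≤ r k) (hN : ∀ k j, Odd j → j < 2 * r k → 2 ^ k * j ∈ N)
    {p K : ℕ} (hp : p < 2 ^ K) (n : ℕ) : ∀ k, k + n = K → ∀ h, 0 < h → ∀ Z, St k p h Z →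
      ES β (AA N p k) p Z ≤ ∑ l ∈ Ico k K, 1 / (2 : ℝ) ^ r l := by
  classical
  induction n with
  | zero =>
    intro k hk h h0 Z hZ
    rw [add_zero] at hk
    subst hk
    have := Nat.le_of_dvd h0 hZ.2.1
    have := hZ.1
    omega
  | succ n ih =>
    intro k hk h h0 Z hZ
    have hA : ∀ d ∈ AA N p k, 0 < d ∧ 2 ^ k ∣ d ∧ IsFactor d (β d) := by
      intro d hd
      rw [mem_AA] at hd
      exact ⟨hd.2.1, hd.2.2.2, hβ d hd.2.2.1 hd.2.1⟩
    by_cases hhN : h ∈ N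
    · rw [ES_flip (fun d hd => (hA d hd).2) (mem_AA.2 ⟨hZ.1, h0, hhN, hZ.2.1⟩) h0 hZ]
      exact sum_nonneg fun _ _ => by positivity
    · have hbig : 2 ^ k * (2 * r k) < h := by
        by_contra hcon
        push Not at hcon
        apply hhN
        obtain ⟨l, j, hj, rfl⟩ := Nat.exists_eq_two_pow_mul_odd h0.ne'
        have hkl : k ≤ l := by
          have h1 := hZ.2.1
          have hcop : Nat.Coprime (2 ^ k) j := Nat.Coprime.pow_left _ (Nat.coprime_two_left.2 hj)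
          exact (Nat.pow_dvd_pow_iff_le_right (by norm_num)).1 (hcop.dvd_of_dvd_mul_right h1)
        apply hN l j hj
        rcases Nat.eq_or_lt_of_le hkl with rfl | hlt
        · have h1 := Nat.le_of_mul_le_mul_left hcon (by positivity)
          obtain ⟨x, rfl⟩ := hj
          omega
        · obtain ⟨e, rfl⟩ : ∃ e, l = k + 1 + e := ⟨l - (k + 1), by omega⟩
          have h1 : 2 ^ (k + 1 + e) * j = 2 ^ k * (2 * (2 ^ e * j)) := by
            rw [pow_add, pow_succ]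
            ring
          rw [h1] at hcon
          have h2 := Nat.le_of_mul_le_mul_left hcon (by positivity)
          have h3 : j ≤ 2 ^ e * j := Nat.le_mul_of_pos_left _ (by positivity)
          have h4 := hr (show k ≤ k + 1 + e by omega)
          have h5 := hr1 k
          omega
      set J := (range (r k)).image fun i => 2 ^ k * (2 * i + 1) with hJ
      have hJc : #J = r k := by
        rw [hJ, card_image_of_injective, card_range]
        intro a b hab
        have := Nat.eq_of_mul_eq_mul_left (show 0 < 2 ^ k by positivity) hab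
        omega
      have hst := step (C := 2 ^ k * (2 * r k)) (ε := ∑ l ∈ Ico (k + 1) K, 1 / (2 : ℝ) ^ r l)
        (sum_nonneg fun _ _ => by positivity) hA hZ J (by
          intro d hd
          rw [hJ, mem_image] at hd
          obtain ⟨i, hi, rfl⟩ := hd
          rw [mem_range] at hi
          have h1 : 2 ^ k * (2 * i + 1) ≤ 2 ^ k * (2 * r k) := Nat.mul_le_mul_left _ (by omega)
          have h2 := hZ.1
          refine ⟨mem_AA.2 ⟨by omega, by positivity, hN k _ ⟨i, rfl⟩ (by omega), Dvd.intro _ rfl⟩,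
            ?_, h1⟩
          rw [pow_succ]
          intro hdv
          have := Nat.dvd_of_mul_dvd_mul_left (show 0 < 2 ^ k by positivity) hdv
          omega) hbig (by
          intro h' h1 h2 h3 Z' hZ'
          rw [AA_succ]
          exact ih (k + 1) (by omega) h' (by omega) Z' hZ')
      refine hst.trans (le_of_eq ?_)
      rw [hJc, sum_eq_sum_Ico_succ_bot (by omega : k < K)]
      ring

theorem sparse_inj {i i' u u' : ℕ} (hi : 2 ≤ i) (hi' : 2 ≤ i') (hu : u < 4) (hu' : u' < 4)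
    (h : 2 ^ 2 ^ i + 2 * u + 1 = 2 ^ 2 ^ i' + 2 * u' + 1) : i = i' ∧ u = u' := by
  have key : ∀ a b : ℕ, 2 ≤ a → a < b → 2 ^ 2 ^ a + 8 < 2 ^ 2 ^ b := by
    intro a b ha hab
    have h1 : 2 ^ (a + 1) ≤ 2 ^ b := Nat.pow_le_pow_right (by norm_num) hab
    have h2 : 2 ^ 2 ^ (a + 1) ≤ 2 ^ 2 ^ b := Nat.pow_le_pow_right (by norm_num) h1
    have h3 : 2 ^ 2 ^ (a + 1) = 2 ^ 2 ^ a * 2 ^ 2 ^ a := by
      rw [← pow_add]
      congr 1
      ring
    have h4 : 2 ^ 2 ≤ 2 ^ a := Nat.pow_le_pow_right (by norm_num) ha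
    have h5 : 2 ^ 2 ^ 2 ≤ 2 ^ 2 ^ a := Nat.pow_le_pow_right (by norm_num) h4
    norm_num at h5
    have h6 : 16 * 2 ^ 2 ^ a ≤ 2 ^ 2 ^ a * 2 ^ 2 ^ a := Nat.mul_le_mul_right _ h5
    omega
  have h1 : i = i' := by
    rcases lt_trichotomy i i' with h2 | h2 | h2
    · have := key i i' hi h2
      omega
    · exact h2
    · have := key i' i hi' h2
      omega
  subst h1
  exact ⟨rfl, by omega⟩

/-- the first levels -/
theorem phase1 {β : ℕ → S} {N : Set ℕ} (hβ : ∀ d ∈ N, 0 < d → IsFactor d (β d))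
    (hN : ∀ k i u, 2 ≤ i → u < 4 → 2 ^ k * (2 ^ 2 ^ i + 2 * u + 1) ∈ N)
    {p M I k₁ m₀ : ℕ} (hI : ∀ i < I, 2 ^ i + 1 ≤ m₀) (hm : ∀ k < k₁, m₀ + 2 * k + 1 ≤ M)
    {E : ℝ} (hE : 0 ≤ E)
    (H : ∀ h, 2 ^ (M - k₁) ≤ h → ∀ Z, St k₁ p h Z → ES β (AA N p k₁) p Z ≤ E) (n : ℕ) :
    ∀ k, k + n = k₁ → ∀ h, 2 ^ (M - k) ≤ h → ∀ Z, St k p h Z →
      ES β (AA N p k) p Z ≤ E + n * (1 / 2 ^ (4 * (I - 2))) := by
  classical
  induction n with
  | zero =>
    intro k hk h hh Z hZ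
    rw [add_zero] at hk
    subst hk
    rw [Nat.cast_zero, zero_mul, add_zero]
    exact H h hh Z hZ
  | succ n ih =>
    intro k hk h hh Z hZ
    have hA : ∀ d ∈ AA N p k, 0 < d ∧ 2 ^ k ∣ d ∧ IsFactor d (β d) := by
      intro d hd
      rw [mem_AA] at hd
      exact ⟨hd.2.1, hd.2.2.2, hβ d hd.2.2.1 hd.2.1⟩
    have hmk := hm k (by omega)
    have e1 : 2 ^ (M - k) = 2 ^ (M - (k + 1)) + 2 ^ (M - (k + 1)) := by
      rw [show M - k = M - (k + 1) + 1 by omega, pow_succ]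
      ring
    have hCpos : 0 < 2 ^ (M - (k + 1)) := by positivity
    set J := ((Ico 2 I) ×ˢ (range 4)).image fun x : ℕ × ℕ => 2 ^ k * (2 ^ 2 ^ x.1 + 2 * x.2 + 1)
      with hJ
    have hJc : #J = 4 * (I - 2) := by
      rw [hJ, card_image_of_injOn, card_product, Nat.card_Ico, card_range, mul_comm]
      intro x hx y hy hxy
      rw [mem_coe, mem_product, mem_Ico, mem_range] at hx hy
      have h1 := Nat.eq_of_mul_eq_mul_left (show 0 < 2 ^ k by positivity) hxy
      obtain ⟨h2, h3⟩ := sparse_inj hx.1.1 hy.1.1 hx.2 hy.2 h1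
      ext
      · exact h2
      · exact h3
    have hst := step (C := 2 ^ (M - (k + 1))) (ε := E + n * (1 / 2 ^ (4 * (I - 2))))
      (by positivity) hA hZ J (by
        intro d hd
        rw [hJ, mem_image] at hd
        obtain ⟨⟨i, u⟩, hx, rfl⟩ := hd
        rw [mem_product, mem_Ico, mem_range] at hx
        obtain ⟨⟨hi1, hi2⟩, hu⟩ := hx
        simp only at hi1 hi2 hu ⊢
        have h1 := hI i hi2
        have h5 : 2 ^ 2 ^ 2 ≤ 2 ^ 2 ^ i :=
          Nat.pow_le_pow_right (by norm_num) (Nat.pow_le_pow_right (by norm_num) hi1)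
        norm_num at h5
        have h6 : 2 ^ 2 ^ i + 2 * u + 1 ≤ 2 ^ (2 ^ i + 1) := by
          rw [pow_succ]
          omega
        have h7 : 2 ^ (2 ^ i + 1) ≤ 2 ^ (M - (2 * k + 1)) :=
          Nat.pow_le_pow_right (by norm_num) (by omega)
        have h8 : 2 ^ k * (2 ^ 2 ^ i + 2 * u + 1) ≤ 2 ^ (M - (k + 1)) := by
          calc 2 ^ k * (2 ^ 2 ^ i + 2 * u + 1) ≤ 2 ^ k * 2 ^ (M - (2 * k + 1)) :=
                Nat.mul_le_mul_left _ (h6.trans h7)
            _ = 2 ^ (M - (k + 1)) := by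
                rw [← pow_add]
                congr 1
                omega
        have h9 := hZ.1
        refine ⟨mem_AA.2 ⟨by omega, by positivity, hN k i u hi1 hu, Dvd.intro _ rfl⟩, ?_, h8⟩
        rw [pow_succ]
        intro hdv
        have h10 := Nat.dvd_of_mul_dvd_mul_left (show 0 < 2 ^ k by positivity) hdv
        have h11 : 2 ∣ 2 ^ 2 ^ i := dvd_pow_self 2 (by positivity)
        omega) (by omega) (by
        intro h' h1 h2 h3 Z' hZ'
        rw [AA_succ]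
        exact ih (k + 1) (by omega) h' (by omega) Z' hZ')
    refine hst.trans (le_of_eq ?_)
    rw [hJc]
    push_cast
    ring

end Pool.Agent.H89.TH
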