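import Pool.Agent.H89.TH.B

set_option autoImplicit false

/-!
# The thin set, and the bound for the means
-/

namespace Pool.Agent.H89.TH

open PowerSeries Finset Pool.Agent.R978.PD

/-- the numbers `2 ^ k j`, `j` odd, with `j < 6 (log₂ (k + 1) + 1)` or
`j = 2 ^ 2 ^ i + 1, 2 ^ 2 ^ i + 3, 2 ^ 2 ^ i + 5, 2 ^ 2 ^ i + 7` for some `i ≥ 2` -/
def thin : Set ℕ := {d | ∃ k j : ℕ, Odd j ∧ d = 2 ^ k * j ∧
  (j < 6 * (Nat.log 2 (k + 1) + 1) ∨ ∃ i u : ℕ, 2 ≤ i ∧ u < 4 ∧ j = 2 ^ 2 ^ i + 2 * u + 1)}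

/-- half of the bound for `j` -/
def rr (k : ℕ) : ℕ := 3 * (Nat.log 2 (k + 1) + 1)

theorem rr_mono : Monotone rr := by
  intro a b h
  unfold rr
  have : Nat.log 2 (a + 1) ≤ Nat.log 2 (b + 1) := Nat.log_mono_right (by omega)
  omega

theorem rr_pos (k : ℕ) : 1 ≤ rr k := by
  unfold rr
  omega

theorem thin_small (k j : ℕ) (hj : Odd j) (h : j < 2 * rr k) : 2 ^ k * j ∈ thin := by
  refine ⟨k, j, hj, rfl, Or.inl ?_⟩
  unfold rr at h
  omega

theorem thin_sparse (k i u : ℕ) (hi : 2 ≤ i) (hu : u < 4) :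
    2 ^ k * (2 ^ 2 ^ i + 2 * u + 1) ∈ thin := by
  refine ⟨k, _, ?_, rfl, Or.inr ⟨i, u, hi, hu, rfl⟩⟩
  have h : Even (2 ^ 2 ^ i) := (even_iff_two_dvd).2 (dvd_pow_self 2 (by positivity))
  obtain ⟨x, hx⟩ := h
  exact ⟨x + u, by omega⟩

theorem thin_card (x : ℕ) : (thin ∩ Set.Icc 1 x).ncard ≤
    7 * (Nat.log 2 x + 1) * (Nat.log 2 (Nat.log 2 x + 1) + 1) := by
  classical
  set L := Nat.log 2 x with hL
  set F₁ := ((range (L + 1)) ×ˢ (range (3 * (Nat.log 2 (L + 1) + 1)))).image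
    fun y : ℕ × ℕ => 2 ^ y.1 * (2 * y.2 + 1) with hF1
  set F₂ := ((range (L + 1)) ×ˢ ((range (Nat.log 2 L + 1)) ×ˢ (range 4))).image
    fun y : ℕ × ℕ × ℕ => 2 ^ y.1 * (2 ^ 2 ^ y.2.1 + 2 * y.2.2 + 1) with hF2
  have hsub : thin ∩ Set.Icc 1 x ⊆ ((F₁ ∪ F₂ : Finset ℕ) : Set ℕ) := by
    rintro d ⟨⟨k, j, hj, rfl, h⟩, hd1, hd2⟩
    have hx0 : x ≠ 0 := by omega
    have hj1 : 1 ≤ j := hj.pos
    have hk : k ≤ L := by
      rw [hL]
      apply Nat.le_log_of_pow_le (by norm_num)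
      exact (Nat.le_mul_of_pos_right _ hj1).trans hd2
    rw [mem_coe, mem_union]
    rcases h with h | ⟨i, u, hi, hu, rfl⟩
    · left
      obtain ⟨e, rfl⟩ := hj
      rw [hF1, mem_image]
      refine ⟨(k, e), ?_, rfl⟩
      rw [mem_product, mem_range, mem_range]
      have : Nat.log 2 (k + 1) ≤ Nat.log 2 (L + 1) := Nat.log_mono_right (by omega)
      simp only
      omega
    · right
      rw [hF2, mem_image]
      refine ⟨(k, i, u), ?_, rfl⟩
      rw [mem_product, mem_product, mem_range, mem_range, mem_range]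
      simp only
      refine ⟨by omega, ?_, hu⟩
      have h1 : 2 ^ 2 ^ i ≤ x := by
        have h2 : 2 ^ 2 ^ i + 2 * u + 1 ≤ 2 ^ k * (2 ^ 2 ^ i + 2 * u + 1) :=
          Nat.le_mul_of_pos_left _ (by positivity)
        omega
      have h3 : 2 ^ i ≤ L := by
        rw [hL]
        exact Nat.le_log_of_pow_le (by norm_num) h1
      have h4 : i ≤ Nat.log 2 L := Nat.le_log_of_pow_le (by norm_num) h3
      omega
  have h1 : (thin ∩ Set.Icc 1 x).ncard ≤ #(F₁ ∪ F₂) := by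
    rw [← Set.ncard_coe_finset]
    exact Set.ncard_le_ncard hsub (Finset.finite_toSet _)
  have h2 : #F₁ ≤ (L + 1) * (3 * (Nat.log 2 (L + 1) + 1)) := by
    refine card_image_le.trans ?_
    rw [card_product, card_range, card_range]
  have h3 : #F₂ ≤ (L + 1) * ((Nat.log 2 L + 1) * 4) := by
    refine card_image_le.trans ?_
    rw [card_product, card_product, card_range, card_range, card_range]
  have h4 : Nat.log 2 L ≤ Nat.log 2 (L + 1) := Nat.log_mono_right (by omega)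
  calc _ ≤ #(F₁ ∪ F₂) := h1
    _ ≤ #F₁ + #F₂ := card_union_le _ _
    _ ≤ (L + 1) * (3 * (Nat.log 2 (L + 1) + 1)) + (L + 1) * ((Nat.log 2 (L + 1) + 1) * 4) := by
        refine add_le_add h2 (h3.trans ?_)
        gcongr
    _ = _ := by ring

theorem pow_rr (l : ℕ) : 1 / (2 : ℝ) ^ rr l ≤ 1 / ((l : ℝ) + 1) ^ 3 := by
  have h1 : l + 1 < 2 ^ (Nat.log 2 (l + 1) + 1) := Nat.lt_pow_succ_log_self (by norm_num) _
  have h2 : ((l : ℝ) + 1) ≤ 2 ^ (Nat.log 2 (l + 1) + 1) := by exact_mod_cast h1.le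
  have h3 : (2 : ℝ) ^ rr l = (2 ^ (Nat.log 2 (l + 1) + 1)) ^ 3 := by
    unfold rr
    rw [← pow_mul, mul_comm]
  rw [h3]
  apply one_div_le_one_div_of_le (by positivity)
  gcongr

/-- the bound for the means -/
theorem mean_bound {β : ℕ → S} (hβ : ∀ d ∈ thin, IsFactor d (β d)) {p h : ℕ} {Z : S} (h0 : 0 < h)
    (hp : p < 4 * h) (hZ : St 0 p h Z) :
    ES β (AA thin p 0) p Z ≤ 8800 / ((Nat.log 2 p : ℝ) + 1) ^ 2 := by
  have hβ' : ∀ d ∈ thin, 0 < d → IsFactor d (β d) := fun d hd _ => hβ d hd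
  set M := Nat.log 2 h with hM
  have hM1 : 2 ^ M ≤ h := Nat.pow_log_le_self 2 h0.ne'
  have hM2 : h < 2 ^ (M + 1) := Nat.lt_pow_succ_log_self (by norm_num) _
  have hhp := hZ.1
  have hp0 : p ≠ 0 := by omega
  have hpK : p < 2 ^ (Nat.log 2 p + 1) := Nat.lt_pow_succ_log_self (by norm_num) _
  have hLM : Nat.log 2 p ≤ M + 2 := by
    have h1 : 2 ^ Nat.log 2 p ≤ p := Nat.pow_log_le_self 2 hp0
    have h2 : 2 ^ Nat.log 2 p < 2 ^ (M + 3) := by
      have : 2 ^ (M + 3) = 4 * 2 ^ (M + 1) := by rw [pow_add, pow_add]; ring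
      omega
    have := (Nat.pow_lt_pow_iff_right (a := 2) (by norm_num)).1 h2
    omega
  rcases Nat.lt_or_ge M 8 with hM8 | hM8
  · refine (ES_le_one _ _ _ _).trans ?_
    rw [le_div_iff₀ (by positivity), one_mul]
    have h1 : (Nat.log 2 p : ℝ) + 1 ≤ 10 := by
      have : Nat.log 2 p + 1 ≤ 10 := by omega
      exact_mod_cast this
    have h2 : (0 : ℝ) ≤ (Nat.log 2 p : ℝ) + 1 := by positivity
    nlinarith
  · set K := Nat.log 2 p + 1 with hK
    have hKM : M / 4 ≤ K := by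
      have : M ≤ Nat.log 2 p := Nat.log_mono_right hhp
      omega
    have hMr : (8 : ℝ) ≤ M := by exact_mod_cast hM8
    set E : ℝ := ∑ l ∈ Ico (M / 4) K, 1 / (2 : ℝ) ^ rr l with hE
    have hE0 : 0 ≤ E := sum_nonneg fun _ _ => by positivity
    have hph2 : ∀ h', 2 ^ (M - M / 4) ≤ h' → ∀ Z', St (M / 4) p h' Z' →
        ES β (AA thin p (M / 4)) p Z' ≤ E := by
      intro h' hh' Z' hZ'
      have : 0 < 2 ^ (M - M / 4) := by positivity
      exact phase2 hβ' rr_mono rr_pos thin_small hpK (K - M / 4) (M / 4) (by omega) h' (by omega)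
        Z' hZ'
    have hy : M / 2 - 1 ≠ 0 := by omega
    have hph1 := phase1 hβ' thin_sparse (I := Nat.log 2 (M / 2 - 1) + 1) (m₀ := M / 2)
      (fun i hi => by
        have h1 : 2 ^ i ≤ 2 ^ Nat.log 2 (M / 2 - 1) := Nat.pow_le_pow_right (by norm_num) (by omega)
        have h2 : 2 ^ Nat.log 2 (M / 2 - 1) ≤ M / 2 - 1 := Nat.pow_log_le_self 2 hy
        omega) (fun k hk => by omega) hE0 hph2 (M / 4) 0 (by omega) h (by
          rw [Nat.sub_zero]
          exact hM1) Z hZ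
    refine hph1.trans ?_
    have hEb : E ≤ 128 / (M : ℝ) ^ 2 := by
      have h1 : ∀ l ∈ Ico (M / 4) K, 1 / (2 : ℝ) ^ rr l ≤ 64 / (M : ℝ) ^ 3 := by
        intro l hl
        rw [mem_Ico] at hl
        refine (pow_rr l).trans ?_
        have h2 : M ≤ 4 * (l + 1) := by omega
        have h3 : (M : ℝ) / 4 ≤ (l : ℝ) + 1 := by
          have : (M : ℝ) ≤ 4 * ((l : ℝ) + 1) := by exact_mod_cast h2
          linarith
        have h4 : 64 / (M : ℝ) ^ 3 = 1 / ((M : ℝ) / 4) ^ 3 := by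
          field_simp
          norm_num
        rw [h4]
        apply one_div_le_one_div_of_le (by positivity)
        gcongr
      refine (sum_le_sum h1).trans ?_
      rw [sum_const, Nat.card_Ico, nsmul_eq_mul]
      have h5 : ((K - M / 4 : ℕ) : ℝ) ≤ 2 * M := by
        have : K - M / 4 ≤ 2 * M := by omega
        exact_mod_cast this
      calc ((K - M / 4 : ℕ) : ℝ) * (64 / (M : ℝ) ^ 3) ≤ 2 * M * (64 / (M : ℝ) ^ 3) := by gcongr
        _ = 128 / (M : ℝ) ^ 2 := by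
            field_simp
            norm_num
    have hS : ((M / 4 : ℕ) : ℝ) * (1 / 2 ^ (4 * (Nat.log 2 (M / 2 - 1) + 1 - 2))) ≤
        2048 / (M : ℝ) ^ 2 := by
      have h1 : M / 2 - 1 < 2 ^ (Nat.log 2 (M / 2 - 1) + 1) := Nat.lt_pow_succ_log_self (by norm_num) _
      have hl1 : 1 ≤ Nat.log 2 (M / 2 - 1) := Nat.le_log_of_pow_le (by norm_num) (by omega)
      obtain ⟨y, hy2⟩ : ∃ y, Nat.log 2 (M / 2 - 1) = y + 1 := ⟨Nat.log 2 (M / 2 - 1) - 1, by omega⟩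
      rw [hy2] at h1 ⊢
      have h2 : y + 1 + 1 - 2 = y := by omega
      rw [h2]
      have h3 : M ≤ 16 * 2 ^ y := by
        rw [pow_succ, pow_succ] at h1
        omega
      have h4 : (M : ℝ) / 16 ≤ 2 ^ y := by
        have : (M : ℝ) ≤ 16 * 2 ^ y := by exact_mod_cast h3
        linarith
      have h5 : (2 : ℝ) ^ (4 * y) = (2 ^ y) ^ 4 := by rw [← pow_mul, mul_comm]
      have h6 : 1 / (2 : ℝ) ^ (4 * y) ≤ 1 / ((M : ℝ) / 16) ^ 4 := by
        rw [h5]
        apply one_div_le_one_div_of_le (by positivity)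
        gcongr
      have h7 : ((M / 4 : ℕ) : ℝ) ≤ (M : ℝ) / 4 := by
        have := Nat.cast_div_le (α := ℝ) (m := M) (n := 4)
        exact_mod_cast this
      calc ((M / 4 : ℕ) : ℝ) * (1 / 2 ^ (4 * y)) ≤ (M : ℝ) / 4 * (1 / ((M : ℝ) / 16) ^ 4) := by
            gcongr
        _ = 16384 / (M : ℝ) ^ 2 / M := by
            field_simp
            norm_num
        _ ≤ 16384 / (M : ℝ) ^ 2 / 8 := by gcongr
        _ = 2048 / (M : ℝ) ^ 2 := by ring
    have hKr : (Nat.log 2 p : ℝ) + 1 ≤ 2 * M := by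
      have : Nat.log 2 p + 1 ≤ 2 * M := by omega
      exact_mod_cast this
    have hpos : (0 : ℝ) < (Nat.log 2 p : ℝ) + 1 := by positivity
    have hfin : 2176 / (M : ℝ) ^ 2 ≤ 8800 / ((Nat.log 2 p : ℝ) + 1) ^ 2 := by
      rw [div_le_div_iff₀ (by positivity) (by positivity)]
      have : ((Nat.log 2 p : ℝ) + 1) ^ 2 ≤ (2 * M) ^ 2 := by gcongr
      nlinarith
    calc _ ≤ 128 / (M : ℝ) ^ 2 + 2048 / (M : ℝ) ^ 2 := add_le_add hEb hS
      _ = 2176 / (M : ℝ) ^ 2 := by ring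
      _ ≤ _ := hfin

end Pool.Agent.H89.TH
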