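import Pool.Agent.H89.TH.C

set_option autoImplicit false

/-!
# Means over subsets and integrals, a strong law
-/

namespace Pool.Agent.H89.TH

open MeasureTheory ProbabilityTheory Filter Topology Pool.Agent.R978.PD
open scoped ENNReal

variable {Ω : Type} [MeasurableSpace Ω] {P : Measure Ω} [IsProbabilityMeasure P]
  {ξ : ℕ → Ω → Bool}

/-- `f` depends only on the coordinates in `A` -/
def On (A : Finset ℕ) (f : (ℕ → Bool) → ℝ) : Prop :=
  ∀ r r', (∀ a ∈ A, r a = r' a) → f r = f r'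

theorem On.dep {A : Finset ℕ} {f : (ℕ → Bool) → ℝ} (h : On A f) : Dep (A.sup id) f :=
  fun r r' H => h r r' fun a ha => H a (Finset.le_sup (f := id) ha)

/-- the indicator function of a finite set -/
def fi (D : Finset ℕ) : ℕ → Bool := fun a => decide (a ∈ D)

theorem integral_eq (hm : ∀ a, Measurable (ξ a)) (hi : iIndepFun ξ P) (A : Finset ℕ)
    (hh : ∀ a ∈ A, rho P ξ a = 1 / 2) : ∀ f, On A f →
      ∫ ω, f (fun a => ξ a ω) ∂P = (∑ D ∈ A.powerset, f (fi D)) / 2 ^ A.card := by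
  classical
  induction A using Finset.induction_on with
  | empty =>
    intro f hf
    have h1 : ∀ ω, f (fun a => ξ a ω) = f (fi ∅) := fun ω =>
      hf _ _ fun a ha => absurd ha (Finset.notMem_empty a)
    simp only [h1, integral_const, probReal_univ, smul_eq_mul, one_mul, Finset.powerset_empty,
      Finset.sum_singleton, Finset.card_empty, pow_zero, div_one]
  | insert b A hb ih =>
    intro f hf
    have hA := ih fun a ha => hh a (Finset.mem_insert_of_mem ha)
    rw [resample hm hi hf.dep b, hh b (Finset.mem_insert_self b A)]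
    have hon : ∀ t : Bool, On A fun r => f (Function.update r b t) := by
      intro t r r' H
      refine hf _ _ fun a ha => ?_
      by_cases hab : a = b
      · subst hab
        simp
      · rw [Function.update_of_ne hab, Function.update_of_ne hab]
        exact H a ((Finset.mem_insert.1 ha).resolve_left hab)
    have hint : ∀ t : Bool, Integrable (fun ω => f (Function.update (fun a => ξ a ω) b t)) P :=
      fun t => (hon t).dep.integrable hm
    have e1 := hA _ (hon true)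
    have e2 := hA _ (hon false)
    rw [integral_add ((hint true).const_mul _) ((hint false).const_mul _), integral_const_mul,
      integral_const_mul, e1, e2, Finset.sum_powerset_insert hb, Finset.card_insert_of_notMem hb]
    have e3 : ∀ D ∈ A.powerset, f (Function.update (fi D) b true) = f (fi (insert b D)) := by
      intro D hD
      refine hf _ _ fun a ha => ?_
      by_cases hab : a = b
      · subst hab
        simp [fi]
      · rw [Function.update_of_ne hab]
        simp [fi, hab]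
    have e4 : ∀ D ∈ A.powerset, f (Function.update (fi D) b false) = f (fi D) := by
      intro D hD
      rw [Finset.mem_powerset] at hD
      refine hf _ _ fun a ha => ?_
      by_cases hab : a = b
      · subst hab
        have : a ∉ D := fun h => hb (hD h)
        simp [fi, this]
      · rw [Function.update_of_ne hab]
    rw [Finset.sum_congr rfl e3, Finset.sum_congr rfl e4, pow_succ]
    ring

/-! ### the strong law -/

theorem sq_le_pow (f : ℕ) : (2 * f + 1) ^ 2 ≤ 7 * 2 ^ f := by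
  induction f with
  | zero => norm_num
  | succ f ih =>
    rcases Nat.lt_or_ge f 2 with h | h
    · interval_cases f
      · norm_num
      · norm_num
    · rw [pow_succ 2 f]
      nlinarith

theorem sum_log (m : ℕ) (hm : 1 ≤ m) :
    ∑ l ∈ Finset.range m, 1 / ((Nat.log 2 l : ℝ) + 1) ^ 2 ≤
      18 * m / ((Nat.log 2 m : ℝ) + 1) ^ 2 ∧
      ((Nat.log 2 m : ℝ) + 1) ^ 2 ≤ 14 * m := by
  set g := Nat.log 2 m + 1 with hg
  set f := g / 2 with hf
  have h1 : 2 ^ (g - 1) ≤ m := by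
    rw [hg, Nat.add_sub_cancel]
    exact Nat.pow_log_le_self 2 (by omega)
  have h2 : g ^ 2 ≤ 7 * 2 ^ f := by
    refine le_trans ?_ (sq_le_pow f)
    apply Nat.pow_le_pow_left
    omega
  have h3 : 2 ^ f * g ^ 2 ≤ 14 * m := by
    have h4 : 2 ^ f * 2 ^ f ≤ 2 * 2 ^ (g - 1) := by
      rw [← pow_add, ← pow_succ']
      apply Nat.pow_le_pow_right (by norm_num)
      omega
    calc 2 ^ f * g ^ 2 ≤ 2 ^ f * (7 * 2 ^ f) := Nat.mul_le_mul_left _ h2
      _ = 7 * (2 ^ f * 2 ^ f) := by ring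
      _ ≤ 7 * (2 * 2 ^ (g - 1)) := Nat.mul_le_mul_left _ h4
      _ ≤ 14 * m := by omega
  have hgr : ((Nat.log 2 m : ℝ) + 1) = (g : ℝ) := by
    rw [hg]
    push_cast
    rfl
  have hg0 : (0 : ℝ) < g := by
    rw [hg]
    positivity
  have h3r : (2 : ℝ) ^ f * (g : ℝ) ^ 2 ≤ 14 * m := by exact_mod_cast h3
  rw [hgr]
  constructor
  · have h5 : ∀ l ∈ Finset.range m, 1 / ((Nat.log 2 l : ℝ) + 1) ^ 2 ≤
        (if l < 2 ^ f then 1 else 0) + 4 / (g : ℝ) ^ 2 := by
      intro l _
      split_ifs with hl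
      · have h6 : 1 / ((Nat.log 2 l : ℝ) + 1) ^ 2 ≤ 1 := by
          rw [div_le_one (by positivity)]
          have : (1 : ℝ) ≤ (Nat.log 2 l : ℝ) + 1 := by
            have : (0 : ℝ) ≤ Nat.log 2 l := by positivity
            linarith
          exact one_le_pow₀ this
        have : (0 : ℝ) ≤ 4 / (g : ℝ) ^ 2 := by positivity
        linarith
      · rw [zero_add, div_le_div_iff₀ (by positivity) (by positivity)]
        have h6 : f ≤ Nat.log 2 l := Nat.le_log_of_pow_le (by norm_num) (not_lt.1 hl)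
        have h7 : (g : ℝ) ≤ 2 * ((Nat.log 2 l : ℝ) + 1) := by
          have : g ≤ 2 * (Nat.log 2 l + 1) := by omega
          exact_mod_cast this
        nlinarith
    refine (Finset.sum_le_sum h5).trans ?_
    rw [Finset.sum_add_distrib, Finset.sum_const, Finset.card_range, nsmul_eq_mul, Finset.sum_boole]
    have h8 : (((Finset.range m).filter fun l => l < 2 ^ f).card : ℝ) ≤ 2 ^ f := by
      have : ((Finset.range m).filter fun l => l < 2 ^ f).card ≤ 2 ^ f := by
        calc _ ≤ (Finset.range (2 ^ f)).card := by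
              refine Finset.card_le_card fun l hl => ?_
              rw [Finset.mem_filter] at hl
              exact Finset.mem_range.2 hl.2
          _ = 2 ^ f := Finset.card_range _
      exact_mod_cast this
    have h9 : (2 : ℝ) ^ f ≤ 14 * m / (g : ℝ) ^ 2 := by
      rw [le_div_iff₀ (by positivity)]
      exact h3r
    calc _ ≤ 14 * m / (g : ℝ) ^ 2 + m * (4 / (g : ℝ) ^ 2) := by
          gcongr
          exact h8.trans h9
      _ = 18 * m / (g : ℝ) ^ 2 := by ring
  · have h10 : (1 : ℝ) ≤ 2 ^ f := one_le_pow₀ (by norm_num)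
    nlinarith [sq_nonneg (g : ℝ)]

theorem second_moment {Y : ℕ → Ω → ℝ} (hm : ∀ k, Measurable (Y k)) (hb : ∀ k ω, |Y k ω| ≤ 1)
    {C : ℝ} (hC : 0 ≤ C)
    (h2 : ∀ k l, k < l → |∫ ω, Y k ω * Y l ω ∂P| ≤ C / ((Nat.log 2 l : ℝ) + 1) ^ 2) (x : ℕ) :
    ∫ ω, (∑ k ∈ Finset.range x, Y k ω) ^ 2 ∂P ≤
      x + 2 * C * x * ∑ l ∈ Finset.range x, 1 / ((Nat.log 2 l : ℝ) + 1) ^ 2 := by
  have hSm : ∀ x : ℕ, Measurable fun ω => ∑ k ∈ Finset.range x, Y k ω :=
    fun x => Finset.measurable_sum _ fun k _ => hm k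
  have hSb : ∀ (N : ℕ) (ω : Ω), |∑ k ∈ Finset.range N, Y k ω| ≤ N := by
    intro N ω
    refine (Finset.abs_sum_le_sum_abs _ _).trans ((Finset.sum_le_sum fun k _ => hb k ω).trans ?_)
    simp
  have key : ∫ ω, (∑ k ∈ Finset.range x, Y k ω) ^ 2 ∂P ≤
      x + 2 * C * ∑ l ∈ Finset.range x, (l : ℝ) * (1 / ((Nat.log 2 l : ℝ) + 1) ^ 2) := by
    induction x with
    | zero => simp
    | succ x ih =>
      have e1 : ∀ ω, (∑ k ∈ Finset.range (x + 1), Y k ω) ^ 2 =
          (∑ k ∈ Finset.range x, Y k ω) ^ 2 +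
          (2 * ∑ k ∈ Finset.range x, Y k ω * Y x ω) + Y x ω ^ 2 := by
        intro ω
        rw [Finset.sum_range_succ, ← Finset.sum_mul]
        ring
      rw [integral_congr_ae (Eventually.of_forall e1)]
      have i1 : Integrable (fun ω => (∑ k ∈ Finset.range x, Y k ω) ^ 2) P := by
        refine Integrable.of_bound ((hSm x).pow_const 2).aestronglyMeasurable ((x : ℝ) ^ 2)
          (Eventually.of_forall fun ω => ?_)
        rw [Real.norm_of_nonneg (by positivity), ← sq_abs]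
        exact pow_le_pow_left₀ (abs_nonneg _) (hSb x ω) 2
      have i2' : ∀ k, Integrable (fun ω => Y k ω * Y x ω) P := by
        intro k
        refine Integrable.of_bound ((hm k).mul (hm x)).aestronglyMeasurable 1
          (Eventually.of_forall fun ω => ?_)
        rw [Real.norm_eq_abs, abs_mul]
        exact mul_le_one₀ (hb k ω) (abs_nonneg _) (hb x ω)
      have i2 : Integrable (fun ω => 2 * ∑ k ∈ Finset.range x, Y k ω * Y x ω) P :=
        (integrable_finsetSum _ fun k _ => i2' k).const_mul 2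
      have i3 : Integrable (fun ω => Y x ω ^ 2) P := by
        refine Integrable.of_bound ((hm x).pow_const 2).aestronglyMeasurable 1
          (Eventually.of_forall fun ω => ?_)
        rw [Real.norm_of_nonneg (by positivity), ← sq_abs]
        exact pow_le_one₀ (abs_nonneg _) (hb x ω)
      have i12 : Integrable (fun ω => (∑ k ∈ Finset.range x, Y k ω) ^ 2 +
          (2 * ∑ k ∈ Finset.range x, Y k ω * Y x ω)) P := i1.add i2
      rw [integral_add i12 i3, integral_add i1 i2, integral_const_mul,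
        integral_finsetSum _ (fun k _ => i2' k)]
      have h3 : ∑ k ∈ Finset.range x, ∫ ω, Y k ω * Y x ω ∂P ≤
          x * (C / ((Nat.log 2 x : ℝ) + 1) ^ 2) := by
        have h4 : ∀ k ∈ Finset.range x, ∫ ω, Y k ω * Y x ω ∂P ≤
            C / ((Nat.log 2 x : ℝ) + 1) ^ 2 := fun k hk =>
          (le_abs_self _).trans (h2 k x (Finset.mem_range.1 hk))
        refine (Finset.sum_le_sum h4).trans (le_of_eq ?_)
        rw [Finset.sum_const, Finset.card_range, nsmul_eq_mul]
      have h5 : ∫ ω, Y x ω ^ 2 ∂P ≤ 1 := by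
        have h6 : ∫ ω, Y x ω ^ 2 ∂P ≤ ∫ _, (1 : ℝ) ∂P := by
          refine integral_mono i3 (integrable_const _) fun ω => ?_
          simp only
          rw [← sq_abs]
          exact pow_le_one₀ (abs_nonneg _) (hb x ω)
        simpa using h6
      rw [Finset.sum_range_succ, mul_add]
      push_cast
      have h7 : 2 * ((x : ℝ) * (C / ((Nat.log 2 x : ℝ) + 1) ^ 2)) =
          2 * C * ((x : ℝ) * (1 / ((Nat.log 2 x : ℝ) + 1) ^ 2)) := by ring
      linarith
  refine key.trans ?_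
  have h8 : ∑ l ∈ Finset.range x, (l : ℝ) * (1 / ((Nat.log 2 l : ℝ) + 1) ^ 2) ≤
      (x : ℝ) * ∑ l ∈ Finset.range x, 1 / ((Nat.log 2 l : ℝ) + 1) ^ 2 := by
    rw [Finset.mul_sum]
    refine Finset.sum_le_sum fun l hl => ?_
    have : (l : ℝ) ≤ x := by exact_mod_cast (Finset.mem_range.1 hl).le
    gcongr
  have h9 := mul_le_mul_of_nonneg_left h8 (show 0 ≤ 2 * C by positivity)
  linarith

/-- convergence along a subsequence with summable second moments -/
theorem subseq {Y : ℕ → Ω → ℝ} (hm : ∀ k, Measurable (Y k)) (hb : ∀ k ω, |Y k ω| ≤ 1)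
    (m : ℕ → ℕ) {B : ℕ → ℝ} (hB0 : ∀ n, 0 ≤ B n) (hB : Summable B)
    (h2 : ∀ n, ∫ ω, ((∑ k ∈ Finset.range (m n), Y k ω) / (m n : ℝ)) ^ 2 ∂P ≤ B n) :
    ∀ᵐ ω ∂P, Tendsto (fun n : ℕ => (∑ k ∈ Finset.range (m n), Y k ω) / (m n : ℝ)) atTop
      (𝓝 0) := by
  have hSm : ∀ N : ℕ, Measurable fun ω => (∑ k ∈ Finset.range N, Y k ω) / (N : ℝ) :=
    fun N => (Finset.measurable_sum _ fun k _ => hm k).div_const _
  have hSb : ∀ (N : ℕ) (ω : Ω), |∑ k ∈ Finset.range N, Y k ω| ≤ N := by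
    intro N ω
    refine (Finset.abs_sum_le_sum_abs _ _).trans ((Finset.sum_le_sum fun k _ => hb k ω).trans ?_)
    simp
  have hAb : ∀ (N : ℕ) (ω : Ω), |(∑ k ∈ Finset.range N, Y k ω) / (N : ℝ)| ≤ 1 := by
    intro N ω
    rw [abs_div, Nat.abs_cast]
    rcases Nat.eq_zero_or_pos N with rfl | hN
    · simp
    · rw [div_le_one (by exact_mod_cast hN)]
      exact hSb N ω
  have hsum : ∑' n : ℕ, ∫⁻ ω, ENNReal.ofReal
      (((∑ k ∈ Finset.range (m n), Y k ω) / (m n : ℝ)) ^ 2) ∂P ≠ ∞ := by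
    have h1 : ∀ n : ℕ, ∫⁻ ω, ENNReal.ofReal
        (((∑ k ∈ Finset.range (m n), Y k ω) / (m n : ℝ)) ^ 2) ∂P ≤ ENNReal.ofReal (B n) := by
      intro n
      rw [← ofReal_integral_eq_lintegral_ofReal]
      · exact ENNReal.ofReal_le_ofReal (h2 n)
      · refine Integrable.of_bound ((hSm _).pow_const 2).aestronglyMeasurable 1
          (Eventually.of_forall fun ω => ?_)
        rw [Real.norm_of_nonneg (by positivity), ← sq_abs]
        exact pow_le_one₀ (abs_nonneg _) (hAb _ ω)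
      · exact Eventually.of_forall fun ω => by positivity
    refine ne_top_of_le_ne_top ?_ (ENNReal.tsum_le_tsum h1)
    rw [← ENNReal.ofReal_tsum_of_nonneg hB0 hB]
    exact ENNReal.ofReal_ne_top
  rw [← lintegral_tsum (fun n => ((hSm _).pow_const 2).ennreal_ofReal.aemeasurable)] at hsum
  have hae := ae_lt_top (Measurable.ennreal_tsum fun n =>
    ((hSm (m n)).pow_const 2).ennreal_ofReal) hsum
  filter_upwards [hae] with ω hω
  have h3 := ENNReal.tendsto_atTop_zero_of_tsum_ne_top hω.ne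
  have h4 : Tendsto (fun n : ℕ => ((∑ k ∈ Finset.range (m n), Y k ω) / (m n : ℝ)) ^ 2) atTop
      (𝓝 0) := by
    have h5 := (ENNReal.tendsto_toReal ENNReal.zero_ne_top).comp h3
    rw [ENNReal.toReal_zero] at h5
    refine h5.congr fun n => ?_
    rw [Function.comp_apply, ENNReal.toReal_ofReal (by positivity)]
  rw [tendsto_zero_iff_abs_tendsto_zero]
  have h6 := h4.sqrt
  rw [Real.sqrt_zero] at h6
  refine h6.congr fun n => ?_
  rw [Real.sqrt_sq_eq_abs]
  rfl

/-- a strong law for bounded functions with small correlations -/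
theorem slln_log {Y : ℕ → Ω → ℝ} (hm : ∀ k, Measurable (Y k)) (hb : ∀ k ω, |Y k ω| ≤ 1)
    {C : ℝ} (hC : 0 ≤ C)
    (h2 : ∀ k l, k < l → |∫ ω, Y k ω * Y l ω ∂P| ≤ C / ((Nat.log 2 l : ℝ) + 1) ^ 2) :
    ∀ᵐ ω ∂P, Tendsto (fun x : ℕ => (∑ k ∈ Finset.range x, Y k ω) / x) atTop (𝓝 0) := by
  have hmom : ∀ x : ℕ, 1 ≤ x → ∫ ω, ((∑ k ∈ Finset.range x, Y k ω) / (x : ℝ)) ^ 2 ∂P ≤
      (14 + 36 * C) / ((Nat.log 2 x : ℝ) + 1) ^ 2 := by
    intro x hx
    have hx0 : (0 : ℝ) < x := by exact_mod_cast hx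
    have h1 := second_moment (P := P) hm hb hC h2 x
    obtain ⟨h3, h4⟩ := sum_log x hx
    have h5 : ∫ ω, (∑ k ∈ Finset.range x, Y k ω) ^ 2 ∂P ≤
        (14 + 36 * C) * x ^ 2 / ((Nat.log 2 x : ℝ) + 1) ^ 2 := by
      refine h1.trans ?_
      have h6 : 2 * C * x * ∑ l ∈ Finset.range x, 1 / ((Nat.log 2 l : ℝ) + 1) ^ 2 ≤
          2 * C * x * (18 * x / ((Nat.log 2 x : ℝ) + 1) ^ 2) :=
        mul_le_mul_of_nonneg_left h3 (by positivity)
      have h7 : (x : ℝ) ≤ 14 * x ^ 2 / ((Nat.log 2 x : ℝ) + 1) ^ 2 := by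
        rw [le_div_iff₀ (by positivity)]
        nlinarith
      calc _ ≤ 14 * x ^ 2 / ((Nat.log 2 x : ℝ) + 1) ^ 2 +
            2 * C * x * (18 * x / ((Nat.log 2 x : ℝ) + 1) ^ 2) := add_le_add h7 h6
        _ = _ := by ring
    have e1 : ∀ ω, ((∑ k ∈ Finset.range x, Y k ω) / (x : ℝ)) ^ 2 =
        (1 / (x : ℝ) ^ 2) * (∑ k ∈ Finset.range x, Y k ω) ^ 2 := by
      intro ω
      field_simp
    simp only [e1]
    rw [integral_const_mul]
    calc _ ≤ (1 / (x : ℝ) ^ 2) * ((14 + 36 * C) * x ^ 2 / ((Nat.log 2 x : ℝ) + 1) ^ 2) :=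
          mul_le_mul_of_nonneg_left h5 (by positivity)
      _ = _ := by field_simp
  have hsub : ∀ j : ℕ, ∀ᵐ ω ∂P, Tendsto (fun n : ℕ =>
      (∑ k ∈ Finset.range ⌊(1 + 1 / ((j : ℝ) + 1)) ^ (n + 1)⌋₊, Y k ω) /
        (⌊(1 + 1 / ((j : ℝ) + 1)) ^ (n + 1)⌋₊ : ℝ)) atTop (𝓝 0) := by
    intro j
    set c : ℝ := 1 + 1 / ((j : ℝ) + 1) with hc
    have hc1 : 1 < c := by
      rw [hc]
      have : (0 : ℝ) < 1 / ((j : ℝ) + 1) := by positivity
      linarith
    have hlog : 0 < Real.logb 2 c := Real.logb_pos (by norm_num) hc1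
    refine subseq hm hb (fun n => ⌊c ^ (n + 1)⌋₊)
      (B := fun n => (14 + 36 * C) / (Real.logb 2 c) ^ 2 * (1 / ((n : ℝ) + 1) ^ 2))
      (fun n => by positivity) ?_ ?_
    · apply Summable.mul_left
      have h3 := (summable_nat_add_iff 1).mpr (Real.summable_one_div_nat_pow.mpr one_lt_two)
      refine h3.congr fun M => ?_
      push_cast
      rfl
    · intro n
      have hge : (1 : ℝ) ≤ c ^ (n + 1) := one_le_pow₀ hc1.le
      have hm1 : 1 ≤ ⌊c ^ (n + 1)⌋₊ := Nat.le_floor (by exact_mod_cast hge)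
      refine (hmom _ hm1).trans ?_
      have h4 : c ^ (n + 1) < ⌊c ^ (n + 1)⌋₊ + 1 := Nat.lt_floor_add_one _
      have h5 : ⌊c ^ (n + 1)⌋₊ + 1 ≤ 2 ^ (Nat.log 2 ⌊c ^ (n + 1)⌋₊ + 1) :=
        Nat.lt_pow_succ_log_self (by norm_num) _
      have h6 : c ^ (n + 1) ≤ 2 ^ (Nat.log 2 ⌊c ^ (n + 1)⌋₊ + 1) := by
        have : ((⌊c ^ (n + 1)⌋₊ : ℝ) + 1) ≤ 2 ^ (Nat.log 2 ⌊c ^ (n + 1)⌋₊ + 1) := by
          exact_mod_cast h5
        linarith
      have h7 : ((n : ℝ) + 1) * Real.logb 2 c ≤ (Nat.log 2 ⌊c ^ (n + 1)⌋₊ : ℝ) + 1 := by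
        have h8 := Real.logb_le_logb_of_le (b := 2) (by norm_num) (by positivity) h6
        rw [Real.logb_pow, Real.logb_pow, Real.logb_self_eq_one (by norm_num), mul_one] at h8
        push_cast at h8
        exact h8
      rw [div_mul_div_comm, mul_one, mul_comm ((Real.logb 2 c) ^ 2), ← mul_pow]
      apply div_le_div_of_nonneg_left (by positivity) (by positivity)
      gcongr
  rw [← ae_all_iff] at hsub
  filter_upwards [hsub] with ω hω
  have hu : Tendsto (fun x : ℕ => (∑ k ∈ Finset.range x, (1 + Y k ω)) / (x : ℝ)) atTop (𝓝 1) := by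
    refine tendsto_div_of_monotone_of_tendsto_div_floor_pow
      (fun x : ℕ => ∑ k ∈ Finset.range x, (1 + Y k ω)) 1 ?_ (fun j : ℕ => 1 + 1 / ((j : ℝ) + 1))
      (fun j => ?_) ?_ ?_
    · refine monotone_nat_of_le_succ fun x => ?_
      rw [Finset.sum_range_succ]
      have := (abs_le.1 (hb x ω)).1
      linarith
    · have : (0 : ℝ) < 1 / ((j : ℝ) + 1) := by positivity
      linarith
    · have h1 := tendsto_one_div_add_atTop_nhds_zero_nat (𝕜 := ℝ)
      have h3 := h1.const_add 1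
      rw [add_zero] at h3
      exact h3
    · intro j
      have h1 := hω j
      have h3 := h1.const_add 1
      rw [add_zero] at h3
      rw [← tendsto_add_atTop_iff_nat 1]
      refine h3.congr fun n => ?_
      have hc1 : (1 : ℝ) ≤ (1 + 1 / ((j : ℝ) + 1)) ^ (n + 1) :=
        one_le_pow₀ (by
          have : (0 : ℝ) < 1 / ((j : ℝ) + 1) := by positivity
          linarith)
      have hm1 : 1 ≤ ⌊(1 + 1 / ((j : ℝ) + 1)) ^ (n + 1)⌋₊ := Nat.le_floor (by exact_mod_cast hc1)
      have hne : (⌊(1 + 1 / ((j : ℝ) + 1)) ^ (n + 1)⌋₊ : ℝ) ≠ 0 := by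
        have : (0 : ℝ) < ⌊(1 + 1 / ((j : ℝ) + 1)) ^ (n + 1)⌋₊ := by exact_mod_cast hm1
        exact this.ne'
      rw [Finset.sum_add_distrib, Finset.sum_const, Finset.card_range, nsmul_eq_mul, mul_one,
        add_div, div_self hne]
  have h3 := hu.add_const (-1)
  rw [add_neg_cancel] at h3
  refine h3.congr' ?_
  filter_upwards [eventually_ge_atTop 1] with x hx
  have hne : (x : ℝ) ≠ 0 := by
    have : (0 : ℝ) < x := by exact_mod_cast hx
    exact this.ne'
  rw [Finset.sum_add_distrib, Finset.sum_const, Finset.card_range, nsmul_eq_mul, mul_one,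
    add_div, div_self hne]
  ring

end Pool.Agent.H89.TH
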