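import Pool.Agent.H89.TH.D

set_option autoImplicit false

/-!
# Frequencies of words
-/

namespace Pool.Agent.H89.TH

open MeasureTheory ProbabilityTheory Filter Topology PowerSeries Pool.Agent.R978.PD

/-! ### from characters to words -/

theorem indicator_eq' {κ : Type} [DecidableEq κ] (U : Finset κ) (X w : κ → ZMod 2) :
    (if ∀ i ∈ U, X i = w i then (1 : ℝ) else 0) =
      (1 / 2) ^ U.card * ∑ T ∈ U.powerset, (∏ i ∈ T, chi (w i)) * ∏ i ∈ T, chi (X i) := by
  have h1 : ∑ T ∈ U.powerset, (∏ i ∈ T, chi (w i)) * ∏ i ∈ T, chi (X i) =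
      ∏ i ∈ U, (1 + chi (w i) * chi (X i)) := by
    rw [Finset.prod_one_add]
    refine Finset.sum_congr rfl fun T _ => ?_
    rw [Finset.prod_mul_distrib]
  rw [h1]
  have h2 : ((1 : ℝ) / 2) ^ U.card = ∏ i ∈ U, (1 / 2 : ℝ) := by simp
  rw [h2, ← Finset.prod_mul_distrib]
  have h3 : ∀ i ∈ U, (1 / 2 : ℝ) * (1 + chi (w i) * chi (X i)) = if X i = w i then 1 else 0 := by
    intro i _
    rcases zmod2 (X i) with h | h <;> rcases zmod2 (w i) with h' | h' <;>
      rw [h, h'] <;> simp [chi] <;> norm_num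
  rw [Finset.prod_congr rfl h3]
  by_cases hall : ∀ i ∈ U, X i = w i
  · rw [if_pos hall]
    symm
    exact Finset.prod_eq_one fun i hi => if_pos (hall i hi)
  · rw [if_neg hall]
    push Not at hall
    obtain ⟨i, hi, hne⟩ := hall
    symm
    exact Finset.prod_eq_zero hi (if_neg hne)

theorem freq_of_chars {κ : Type} [DecidableEq κ] (U : Finset κ) (X : ℕ → κ → ZMod 2)
    (h : ∀ T ⊆ U, T.Nonempty →
      Tendsto (fun x : ℕ => (∑ k ∈ Finset.range x, ∏ i ∈ T, chi (X k i)) / (x : ℝ)) atTop (𝓝 0))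
    (w : κ → ZMod 2) :
    Tendsto (fun x : ℕ => (((Finset.range x).filter fun k => ∀ i ∈ U, X k i = w i).card : ℝ) / x)
      atTop (𝓝 ((1 / 2) ^ U.card)) := by
  have h1 : ∀ x : ℕ, (((Finset.range x).filter fun k => ∀ i ∈ U, X k i = w i).card : ℝ) / x =
      (1 / 2) ^ U.card * ∑ T ∈ U.powerset, (∏ i ∈ T, chi (w i)) *
        ((∑ k ∈ Finset.range x, ∏ i ∈ T, chi (X k i)) / x) := by
    intro x
    rw [Finset.card_filter]
    push_cast
    rw [Finset.sum_congr rfl fun k _ => indicator_eq' U (X k) w,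
      ← Finset.mul_sum, Finset.sum_comm, mul_div_assoc, Finset.sum_div]
    congr 1
    refine Finset.sum_congr rfl fun T _ => ?_
    rw [← Finset.mul_sum, mul_div_assoc]
  have h2 : Tendsto (fun x : ℕ => (1 / 2 : ℝ) ^ U.card * ∑ T ∈ U.powerset,
      (∏ i ∈ T, chi (w i)) * ((∑ k ∈ Finset.range x, ∏ i ∈ T, chi (X k i)) / (x : ℝ))) atTop
      (𝓝 ((1 / 2 : ℝ) ^ U.card * ∑ T ∈ U.powerset, (if T = ∅ then (1 : ℝ) else 0))) := by
    refine Tendsto.const_mul _ (tendsto_finsetSum _ fun T hT0 => ?_)
    rw [Finset.mem_powerset] at hT0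
    by_cases hT : T = ∅
    · subst hT
      rw [if_pos rfl]
      refine tendsto_const_nhds.congr' ?_
      filter_upwards [eventually_ge_atTop 1] with x hx
      have : (x : ℝ) ≠ 0 := by
        have : (0 : ℝ) < x := by exact_mod_cast hx
        exact this.ne'
      simp [this]
    · rw [if_neg hT]
      have h3 := (h T hT0 (Finset.nonempty_iff_ne_empty.2 hT)).const_mul (∏ i ∈ T, chi (w i))
      rw [mul_zero] at h3
      exact h3
  have h3 : ∑ T ∈ U.powerset, (if T = ∅ then (1 : ℝ) else 0) = 1 := by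
    rw [Finset.sum_ite_eq' , if_pos (Finset.empty_mem_powerset _)]
  rw [h3, mul_one] at h2
  exact h2.congr fun x => (h1 x).symm

/-! ### the perturbed series -/

/-- `G ∏ β d` over the `d` in the thin set with `r d = true` -/
noncomputable def pert (β : ℕ → S) (G : S) (r : ℕ → Bool) : S :=
  PowerSeries.mk fun n => coeff n (G * ∏ d ∈ (AA thin n 0).filter (fun d => r d = true), β d)

theorem coeff_big {β : ℕ → S} {n : ℕ} (E : Finset ℕ)
    (hE : ∀ d ∈ E, n < d ∧ coeff 0 (β d) = 1 ∧ ∀ i, 0 < i → i < d → coeff i (β d) = 0) (Y : S) :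
    ∀ m ≤ n, coeff m (Y * ∏ d ∈ E, β d) = coeff m Y := by
  classical
  induction E using Finset.induction_on with
  | empty =>
    intro m _
    rw [Finset.prod_empty, mul_one]
  | insert a E ha ih =>
    intro m hm
    obtain ⟨h1, h2, h3⟩ := hE a (Finset.mem_insert_self _ _)
    rw [Finset.prod_insert ha, mul_comm (β a), ← mul_assoc, coeff_mul,
      Finset.sum_eq_single (m, 0)]
    · simp only [h2, mul_one]
      exact ih (fun d hd => hE d (Finset.mem_insert_of_mem hd)) m hm
    · intro x hx hne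
      rw [Finset.HasAntidiagonal.mem_antidiagonal] at hx
      have h4 : 0 < x.2 := by
        rcases Nat.eq_zero_or_pos x.2 with h | h
        · exfalso
          apply hne
          ext
          · simp only
            omega
          · exact h
        · exact h
      rw [h3 x.2 h4 (by omega), mul_zero]
    · intro h
      exfalso
      apply h
      rw [Finset.HasAntidiagonal.mem_antidiagonal]
      simp

theorem pert_coeff {β : ℕ → S} (hβ : ∀ d ∈ thin, IsFactor d (β d)) (G : S) (r : ℕ → Bool)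
    {n p : ℕ} (h : n ≤ p) : coeff n (pert β G r) =
      coeff n (G * ∏ d ∈ (AA thin p 0).filter (fun d => r d = true), β d) := by
  classical
  unfold pert
  rw [coeff_mk]
  set A := (AA thin n 0).filter (fun d => r d = true) with hA
  set B := (AA thin p 0).filter (fun d => r d = true) with hB
  have hAB : A ⊆ B := by
    intro d hd
    rw [hA, Finset.mem_filter, mem_AA] at hd
    rw [hB, Finset.mem_filter, mem_AA]
    exact ⟨⟨hd.1.1.trans h, hd.1.2⟩, hd.2⟩
  rw [← Finset.prod_sdiff hAB, mul_comm (∏ d ∈ B \ A, β d), ← mul_assoc]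
  symm
  refine coeff_big (B \ A) (fun d hd => ?_) _ n le_rfl
  rw [Finset.mem_sdiff, hA, hB, Finset.mem_filter, Finset.mem_filter, mem_AA, mem_AA] at hd
  obtain ⟨⟨⟨h1, h2, h3, h4⟩, h5⟩, h6⟩ := hd
  have h7 := hβ d h3
  refine ⟨?_, h7.1, h7.2.1⟩
  by_contra hcon
  exact h6 ⟨⟨not_lt.1 hcon, h2, h3, h4⟩, h5⟩

section

variable {ι : Type}

/-- the combination that belongs to a set of places -/
noncomputable def comb (G : ι → S) (T : Finset (ι × ℕ)) (L : ℕ) : S :=
  ∑ y ∈ T, (X : S) ^ (L - y.2) * G y.1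

theorem char_eq {β : ℕ → S} (hβ : ∀ d ∈ thin, IsFactor d (β d)) (G : ι → S)
    (T : Finset (ι × ℕ)) {L : ℕ} (hL : ∀ y ∈ T, y.2 ≤ L) (r : ℕ → Bool) (s p : ℕ) (hp : s + L ≤ p) :
    ∏ y ∈ T, chi (coeff (s + y.2) (pert β (G y.1) r)) =
      chi (coeff p ((X : S) ^ (p - (s + L)) * comb G T L *
        ∏ d ∈ (AA thin p 0).filter (fun d => r d = true), β d)) := by
  classical
  have h1 : ∏ y ∈ T, chi (coeff (s + y.2) (pert β (G y.1) r)) =
      chi (∑ y ∈ T, coeff (s + y.2) (pert β (G y.1) r)) := by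
    induction T using Finset.induction_on with
    | empty => simp [chi_zero]
    | insert a T ha ih =>
      rw [Finset.prod_insert ha, Finset.sum_insert ha, chi_add,
        ih fun y hy => hL y (Finset.mem_insert_of_mem hy)]
  rw [h1]
  congr 1
  set Q := ∏ d ∈ (AA thin p 0).filter (fun d => r d = true), β d with hQ
  have h2 : (X : S) ^ (p - (s + L)) * comb G T L * Q =
      ∑ y ∈ T, (X : S) ^ (p - (s + y.2)) * (G y.1 * Q) := by
    unfold comb
    rw [Finset.mul_sum, Finset.sum_mul]
    refine Finset.sum_congr rfl fun y hy => ?_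
    have h3 := hL y hy
    rw [← mul_assoc, ← pow_add, mul_assoc]
    congr 2
    omega
  rw [h2, map_sum]
  refine Finset.sum_congr rfl fun y hy => ?_
  have h3 := hL y hy
  have h4 : p - (p - (s + y.2)) = s + y.2 := by omega
  rw [coeff_X_pow_mul', if_pos (Nat.sub_le _ _), h4,
    pert_coeff hβ (G y.1) r (show s + y.2 ≤ p by omega)]

variable {Ω : Type} [MeasurableSpace Ω] {P : Measure Ω} [IsProbabilityMeasure P]
  {ξ : ℕ → Ω → Bool}

theorem on_val (β : ℕ → S) (Z : S) (p : ℕ) : On (AA thin p 0) fun r =>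
    chi (coeff p (Z * ∏ d ∈ (AA thin p 0).filter (fun d => r d = true), β d)) := by
  intro r r' h
  have : (AA thin p 0).filter (fun d => r d = true) = (AA thin p 0).filter (fun d => r' d = true) :=
    Finset.filter_congr fun d hd => by rw [h d hd]
  simp only [this]

/-- the correlations -/
theorem corr (hm : ∀ a, Measurable (ξ a)) (hi : iIndepFun ξ P)
    (hh : ∀ a ∈ thin, rho P ξ a = 1 / 2) (β : ℕ → S) (Z : S) (p : ℕ) :
    |∫ ω, chi (coeff p (Z * ∏ d ∈ (AA thin p 0).filter (fun d => ξ d ω = true), β d)) ∂P| =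
      ES β (AA thin p 0) p Z := by
  have h1 := integral_eq hm hi (AA thin p 0) (fun a ha => hh a (mem_AA.1 ha).2.2.1) _
    (on_val β Z p)
  rw [h1, abs_div, abs_of_pos (show (0 : ℝ) < 2 ^ (AA thin p 0).card by positivity)]
  unfold ES
  congr 2
  refine Finset.sum_congr rfl fun D hD => ?_
  rw [Finset.mem_powerset] at hD
  have : (AA thin p 0).filter (fun d => fi D d = true) = D := by
    ext d
    rw [Finset.mem_filter]
    constructor
    · rintro ⟨-, h⟩
      simpa [fi] using h
    · intro h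
      exact ⟨hD h, by simpa [fi] using h⟩
  simp only [this]

theorem char_ae (hm : ∀ a, Measurable (ξ a)) (hi : iIndepFun ξ P)
    (hh : ∀ a ∈ thin, rho P ξ a = 1 / 2) {β : ℕ → S} (hβ : ∀ d ∈ thin, IsFactor d (β d))
    (G : ι → S) {s : ℕ → ℕ} (hs : StrictMono s) (T : Finset (ι × ℕ)) {L : ℕ}
    (hL : ∀ y ∈ T, y.2 ≤ L) (hne : comb G T L ≠ 0) :
    ∀ᵐ ω ∂P, Tendsto (fun x : ℕ => (∑ k ∈ Finset.range x,
      ∏ y ∈ T, chi (coeff (s k + y.2) (pert β (G y.1) fun a => ξ a ω))) / (x : ℝ)) atTop (𝓝 0) := by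
  classical
  obtain ⟨a, ha1, ha2⟩ : ∃ a, coeff a (comb G T L) = 1 ∧ ∀ i < a, coeff i (comb G T L) = 0 := by
    have hex : ∃ a, coeff a (comb G T L) ≠ 0 := by
      by_contra hcon
      push Not at hcon
      apply hne
      ext n
      rw [hcon n, map_zero]
    refine ⟨Nat.find hex, ?_, fun i hi => ?_⟩
    · rcases zmod2 (coeff (Nat.find hex) (comb G T L)) with h | h
      · exact absurd h (Nat.find_spec hex)
      · exact h
    · have := Nat.find_min hex hi
      push Not at this
      exact this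
  have hval : ∀ k ω, ∏ y ∈ T, chi (coeff (s k + y.2) (pert β (G y.1) fun a => ξ a ω)) =
      chi (coeff (s k + L) (comb G T L *
        ∏ d ∈ (AA thin (s k + L) 0).filter (fun d => ξ d ω = true), β d)) := by
    intro k ω
    rw [char_eq hβ G T hL (fun a => ξ a ω) (s k) (s k + L) le_rfl, Nat.sub_self, pow_zero, one_mul]
  have habs : ∀ k ω, |∏ y ∈ T, chi (coeff (s k + y.2) (pert β (G y.1) fun a => ξ a ω))| ≤ 1 := by
    intro k ω
    rw [hval, abs_chi]
  refine slln_log (C := max 8800 (((Nat.log 2 (2 * a + 1) : ℝ) + 1) ^ 2)) (fun k => ?_) habs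
    (by positivity) ?_
  · have h1 : (fun ω => ∏ y ∈ T, chi (coeff (s k + y.2) (pert β (G y.1) fun a => ξ a ω))) =
        fun ω => (fun r : ℕ → Bool => chi (coeff (s k + L) (comb G T L *
        ∏ d ∈ (AA thin (s k + L) 0).filter (fun d => r d = true), β d))) (fun a => ξ a ω) := by
      funext ω
      exact hval k ω
    rw [h1]
    exact (on_val β (comb G T L) (s k + L)).dep.measurable hm
  · intro k l hkl
    have hll : l ≤ s l := hs.id_le l
    have hsk : s k < s l := hs hkl
    rcases Nat.lt_or_ge l (2 * a + 1) with hsmall | hlarge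
    · have h1 : |∫ ω, (∏ y ∈ T, chi (coeff (s k + y.2) (pert β (G y.1) fun a => ξ a ω))) *
          (∏ y ∈ T, chi (coeff (s l + y.2) (pert β (G y.1) fun a => ξ a ω))) ∂P| ≤ 1 := by
        have h2 := norm_integral_le_of_norm_le_const (μ := P) (C := 1)
          (f := fun ω => (∏ y ∈ T, chi (coeff (s k + y.2) (pert β (G y.1) fun a => ξ a ω))) *
          (∏ y ∈ T, chi (coeff (s l + y.2) (pert β (G y.1) fun a => ξ a ω))))
          (Eventually.of_forall fun ω => by
            rw [Real.norm_eq_abs, abs_mul]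
            exact mul_le_one₀ (habs k ω) (abs_nonneg _) (habs l ω))
        rw [Real.norm_eq_abs, probReal_univ, mul_one] at h2
        exact h2
      refine h1.trans ?_
      rw [le_div_iff₀ (by positivity), one_mul]
      refine le_trans ?_ (le_max_right _ _)
      have h3 : Nat.log 2 l ≤ Nat.log 2 (2 * a + 1) := Nat.log_mono_right hsmall.le
      gcongr
    · set p := s l + L with hp
      have hprod : ∀ ω, (∏ y ∈ T, chi (coeff (s k + y.2) (pert β (G y.1) fun a => ξ a ω))) *
          (∏ y ∈ T, chi (coeff (s l + y.2) (pert β (G y.1) fun a => ξ a ω))) =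
          chi (coeff p (((X : S) ^ (s l - s k) + 1) * comb G T L *
            ∏ d ∈ (AA thin p 0).filter (fun d => ξ d ω = true), β d)) := by
        intro ω
        rw [char_eq hβ G T hL (fun a => ξ a ω) (s k) p (by omega),
          char_eq hβ G T hL (fun a => ξ a ω) (s l) p le_rfl, ← chi_add, ← map_add]
        congr 2
        rw [hp, Nat.sub_self, pow_zero, one_mul, show s l + L - (s k + L) = s l - s k by omega]
        ring
      simp only [hprod]
      rw [corr hm hi hh]
      have hSt : St 0 p (p - a) (((X : S) ^ (s l - s k) + 1) * comb G T L) := by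
        have hco : ∀ i ≤ a, coeff i (((X : S) ^ (s l - s k) + 1) * comb G T L) =
            coeff i (comb G T L) := by
          intro i hia
          rw [add_mul, one_mul, map_add, coeff_X_pow_mul']
          split_ifs with h
          · rw [ha2 _ (by omega), zero_add]
          · rw [zero_add]
        refine ⟨Nat.sub_le _ _, by simp, ?_, fun g hg hgp _ => ?_⟩
        · rw [show p - (p - a) = a by omega, hco a le_rfl, ha1]
        · rw [hco _ (by omega), ha2 _ (by omega)]
      have h4 := mean_bound hβ (by omega) (by omega) hSt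
      refine h4.trans ?_
      have h5 : Nat.log 2 l ≤ Nat.log 2 p := Nat.log_mono_right (by omega)
      calc 8800 / ((Nat.log 2 p : ℝ) + 1) ^ 2 ≤ 8800 / ((Nat.log 2 l : ℝ) + 1) ^ 2 := by gcongr
        _ ≤ _ := by
            gcongr
            exact le_max_left _ _

end

end Pool.Agent.H89.TH
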